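import Mathlib

set_option autoImplicit false
set_option linter.unusedSectionVars false

namespace Pool.Agent.Results.MP_ab9fcb_co.OptimalBinding

/-- A graph is perfect if `χ(H) = ω(H)` for every induced subgraph `H`. -/
def IsPerfect {V : Type} (G : SimpleGraph V) : Prop :=
  ∀ s : Set V, (G.induce s).chromaticNumber = ((G.induce s).cliqueNum : ℕ∞)

/-- A graph `G` is perfectly divisible if every induced subgraph `H` of `G` with at least one edge
has a partition `V(H) = A ∪ B` such that `H[A]` is perfect and `ω(H[B]) < ω(H)`. -/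
def IsPerfectlyDivisible {V : Type} (G : SimpleGraph V) : Prop :=
  ∀ s : Set V, (∃ x ∈ s, ∃ y ∈ s, G.Adj x y) →
    ∃ A B : Set V, A ∪ B = s ∧ Disjoint A B ∧ IsPerfect (G.induce A) ∧
      (G.induce B).cliqueNum < (G.induce s).cliqueNum

section General

variable {V : Type} [Finite V] (G : SimpleGraph V)

/-- The clique number of the subgraph induced by `s`. -/
noncomputable def om (s : Set V) : ℕ := (G.induce s).cliqueNum

/-- The subgraph induced by `s` can be properly coloured with `n` colours. -/
def ColS (s : Set V) (n : ℕ) : Prop :=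
  ∃ c : V → ℕ, (∀ x ∈ s, c x < n) ∧ ∀ x ∈ s, ∀ y ∈ s, G.Adj x y → c x ≠ c y

/-- The subgraph induced by `A` is perfect. -/
def PerfS (A : Set V) : Prop := ∀ t ⊆ A, ColS G t (om G t)

theorem exists_om (s : Set V) :
    ∃ t : Finset V, (↑t : Set V) ⊆ s ∧ G.IsClique (↑t : Set V) ∧ t.card = om G s := by
  classical
  obtain ⟨t, ht⟩ := (G.induce s).exists_isNClique_cliqueNum
  rw [SimpleGraph.isNClique_induce_iff] at ht
  refine ⟨_, ?_, ht.isClique, ht.card_eq⟩
  intro x hx
  simp only [Finset.coe_map, Set.mem_image, Finset.mem_coe] at hx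
  obtain ⟨y, _, rfl⟩ := hx
  exact y.2

theorem le_om {s : Set V} (t : Finset V) (ht : (↑t : Set V) ⊆ s)
    (hc : G.IsClique (↑t : Set V)) : t.card ≤ om G s := by
  classical
  have hinj : Function.Injective (fun x : t => (⟨x.1, ht x.2⟩ : s)) := by
    intro a b hab
    have h2 : a.1 = b.1 := congrArg (fun z : s => z.1) hab
    exact Subtype.ext h2
  set t' : Finset s := t.attach.map ⟨fun x => ⟨x.1, ht x.2⟩, hinj⟩ with ht'
  have hcard : t'.card = t.card := by rw [ht', Finset.card_map, Finset.card_attach]
  have hcl : (G.induce s).IsClique (↑t' : Set s) := by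
    intro a ha b hb hab
    rw [Finset.mem_coe, ht', Finset.mem_map] at ha hb
    obtain ⟨x, _, rfl⟩ := ha
    obtain ⟨y, _, rfl⟩ := hb
    apply hc x.2 y.2
    intro h
    apply hab
    exact Subtype.ext h
  rw [← hcard]
  exact SimpleGraph.IsClique.card_le_cliqueNum (tc := hcl)

theorem om_le {s : Set V} {n : ℕ}
    (h : ∀ t : Finset V, (↑t : Set V) ⊆ s → G.IsClique (↑t : Set V) → t.card ≤ n) :
    om G s ≤ n := by
  obtain ⟨t, h1, h2, h3⟩ := exists_om G s
  rw [← h3]
  exact h t h1 h2

theorem om_mono {s t : Set V} (h : s ⊆ t) : om G s ≤ om G t :=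
  om_le G fun u hu hc => le_om G u (hu.trans h) hc

theorem om_pos {s : Set V} {x : V} (hx : x ∈ s) : 0 < om G s := by
  have := le_om G (s := s) {x} (by simpa using hx) (by simp)
  rw [Finset.card_singleton] at this
  exact this

theorem om_empty : om G ∅ = 0 := by
  obtain ⟨t, h1, -, h3⟩ := exists_om G ∅
  rw [← h3, Finset.card_eq_zero]
  exact Finset.coe_eq_empty.mp (Set.subset_empty_iff.mp h1)

theorem om_univ : om G Set.univ = G.cliqueNum := by
  classical
  apply le_antisymm
  · exact SimpleGraph.cliqueNum_induce_le Set.univ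
  · obtain ⟨t, ht⟩ := G.exists_isNClique_cliqueNum
    rw [← ht.card_eq]
    exact le_om G t (Set.subset_univ _) ht.isClique

theorem colorable_iff {s : Set V} {n : ℕ} : (G.induce s).Colorable n ↔ ColS G s n := by
  classical
  constructor
  · rintro ⟨c⟩
    refine ⟨fun x => if h : x ∈ s then (c ⟨x, h⟩ : ℕ) else 0, ?_, ?_⟩
    · intro x hx
      simp [hx]
    · intro x hx y hy hxy
      simp only [hx, hy, dif_pos]
      intro h
      have : (G.induce s).Adj ⟨x, hx⟩ ⟨y, hy⟩ := hxy
      exact c.valid this (Fin.ext h)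
  · rintro ⟨c, h1, h2⟩
    refine ⟨SimpleGraph.Coloring.mk (fun x : s => (⟨c x.1, h1 x.1 x.2⟩ : Fin n)) ?_⟩
    intro x y hxy h
    exact h2 x.1 x.2 y.1 y.2 hxy (by simpa using h)

theorem colorable_univ_iff {n : ℕ} : G.Colorable n ↔ ColS G Set.univ n := by
  classical
  constructor
  · rintro ⟨c⟩
    refine ⟨fun x => (c x : ℕ), fun x _ => (c x).2, fun x _ y _ hxy h => c.valid hxy (Fin.ext h)⟩
  · rintro ⟨c, h1, h2⟩
    refine ⟨SimpleGraph.Coloring.mk (fun x : V => (⟨c x, h1 x trivial⟩ : Fin n)) ?_⟩
    intro x y hxy h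
    exact h2 x trivial y trivial hxy (by simpa using h)

theorem chrom_eq_iff {s : Set V} :
    (G.induce s).chromaticNumber = ((G.induce s).cliqueNum : ℕ∞) ↔ ColS G s (om G s) := by
  rw [← colorable_iff]
  constructor
  · intro h
    exact SimpleGraph.chromaticNumber_le_iff_colorable.mp h.le
  · intro h
    exact le_antisymm (SimpleGraph.chromaticNumber_le_iff_colorable.mpr h)
      (SimpleGraph.cliqueNum_le_chromaticNumber)

/-- Passing from `G.induce A` to `G`. -/
theorem om_induce (A : Set V) (s : Set A) :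
    om (G.induce A) s = om G (Subtype.val '' s) := by
  classical
  apply le_antisymm
  · obtain ⟨t, h1, h2, h3⟩ := exists_om (G.induce A) s
    rw [← h3, ← Finset.card_map (Function.Embedding.subtype (· ∈ A))]
    apply le_om
    · intro x hx
      simp only [Finset.coe_map, Set.mem_image, Finset.mem_coe] at hx
      obtain ⟨y, hy, rfl⟩ := hx
      exact ⟨y, h1 hy, rfl⟩
    · intro x hx y hy hxy
      simp only [Finset.coe_map, Set.mem_image, Finset.mem_coe] at hx hy
      obtain ⟨x', hx', rfl⟩ := hx
      obtain ⟨y', hy', rfl⟩ := hy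
      exact h2 hx' hy' (fun h => hxy (by rw [h]))
  · obtain ⟨t, h1, h2, h3⟩ := exists_om G (Subtype.val '' s)
    have hA : ∀ x ∈ t, x ∈ A := by
      intro x hx
      obtain ⟨y, -, rfl⟩ := h1 hx
      exact y.2
    rw [← h3]
    have hsub : (t.subtype (· ∈ A)).card = t.card := by
      rw [Finset.card_subtype, Finset.filter_true_of_mem hA]
    rw [← hsub]
    apply le_om
    · intro x hx
      rw [Finset.mem_coe, Finset.mem_subtype] at hx
      obtain ⟨y, hy, hyx⟩ := h1 hx
      rwa [← Subtype.ext hyx]
    · intro x hx y hy hxy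
      rw [Finset.mem_coe, Finset.mem_subtype] at hx hy
      exact h2 hx hy (fun h => hxy (Subtype.ext h))

theorem ColS_induce (A : Set V) (s : Set A) (n : ℕ) :
    ColS (G.induce A) s n ↔ ColS G (Subtype.val '' s) n := by
  classical
  constructor
  · rintro ⟨c, h1, h2⟩
    refine ⟨fun x => if h : x ∈ A then c ⟨x, h⟩ else 0, ?_, ?_⟩
    · rintro _ ⟨x, hx, rfl⟩
      simp only [Subtype.coe_prop, dif_pos, Subtype.coe_eta]
      exact h1 x hx
    · rintro _ ⟨x, hx, rfl⟩ _ ⟨y, hy, rfl⟩ hxy
      simp only [Subtype.coe_prop, dif_pos, Subtype.coe_eta]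
      exact h2 x hx y hy hxy
  · rintro ⟨c, h1, h2⟩
    exact ⟨fun x => c x.1, fun x hx => h1 _ ⟨x, hx, rfl⟩,
      fun x hx y hy hxy => h2 _ ⟨x, hx, rfl⟩ _ ⟨y, hy, rfl⟩ hxy⟩

theorem isPerfect_iff (A : Set V) : IsPerfect (G.induce A) ↔ PerfS G A := by
  constructor
  · intro h t ht
    have := (chrom_eq_iff (G.induce A)).mp (h (Subtype.val ⁻¹' t))
    rw [om_induce, ColS_induce, Subtype.image_preimage_coe, Set.inter_eq_right.mpr ht] at this
    exact this
  · intro h s
    rw [chrom_eq_iff, om_induce, ColS_induce]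
    apply h
    rintro _ ⟨x, -, rfl⟩
    exact x.2

/-- A set spanning no edge is perfect. -/
theorem perfS_of_indep {s : Set V} (h : ∀ x ∈ s, ∀ y ∈ s, ¬ G.Adj x y) : PerfS G s := by
  intro t ht
  refine ⟨fun _ => 0, fun x hx => om_pos G hx, fun x hx y hy hxy => ?_⟩
  exact absurd hxy (h x (ht hx) y (ht hy))

/-- The form of divisibility used below, which also covers sets spanning no edge. -/
theorem pd_iff : IsPerfectlyDivisible G ↔ ∀ s : Set V, ∃ A B : Set V, A ∪ B = s ∧ Disjoint A B ∧
    PerfS G A ∧ (B = ∅ ∨ om G B < om G s) := by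
  constructor
  · intro h s
    by_cases hs : ∃ x ∈ s, ∃ y ∈ s, G.Adj x y
    · obtain ⟨A, B, h1, h2, h3, h4⟩ := h s hs
      exact ⟨A, B, h1, h2, (isPerfect_iff G A).mp h3, Or.inr h4⟩
    · push Not at hs
      exact ⟨s, ∅, by simp, by simp, perfS_of_indep G hs, Or.inl rfl⟩
  · intro h s hs
    obtain ⟨A, B, h1, h2, h3, h4⟩ := h s
    refine ⟨A, B, h1, h2, (isPerfect_iff G A).mpr h3, ?_⟩
    rcases h4 with rfl | h4
    · obtain ⟨x, hx, -⟩ := hs
      have e1 : (G.induce (∅ : Set V)).cliqueNum = 0 := om_empty G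
      rw [e1]
      exact om_pos G hx
    · exact h4

/-- Hoàng's bound: a perfectly divisible graph satisfies `χ ≤ C(ω + 1, 2)`. -/
theorem hoang (h : IsPerfectlyDivisible G) :
    ∀ (n : ℕ) (s : Set V), om G s ≤ n → ColS G s ((om G s + 1).choose 2) := by
  classical
  rw [pd_iff] at h
  intro n
  induction n with
  | zero =>
    intro s hs
    refine ⟨fun _ => 0, fun x hx => ?_, fun x hx => ?_⟩
    · have := om_pos G hx
      omega
    · have := om_pos G hx
      omega
  | succ n ih =>
    intro s hs
    obtain ⟨A, B, hAB, hd, hA, hB⟩ := h s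
    have hAs : A ⊆ s := hAB ▸ Set.subset_union_left
    have hBs : B ⊆ s := hAB ▸ Set.subset_union_right
    obtain ⟨c, hc1, hc2⟩ := hA A subset_rfl
    have hAom : om G A ≤ om G s := om_mono G hAs
    have hchoose : (om G s + 1).choose 2 = om G s + (om G s).choose 2 := by
      rw [Nat.choose_succ_succ' (om G s) 1, Nat.choose_one_right]
    rcases hB with rfl | hB
    · rw [Set.union_empty] at hAB
      subst hAB
      refine ⟨c, fun x hx => ?_, hc2⟩
      have := hc1 x hx
      omega
    · obtain ⟨d, hd1, hd2⟩ := ih B (by omega)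
      have hmono : (om G B + 1).choose 2 ≤ (om G s).choose 2 := Nat.choose_le_choose 2 hB
      refine ⟨fun x => if x ∈ A then c x else om G s + d x, ?_, ?_⟩
      · intro x hx
        by_cases hxA : x ∈ A
        · have := hc1 x hxA
          simp only [hxA, if_true]
          omega
        · have hxB : x ∈ B := by
            rw [← hAB] at hx
            exact hx.resolve_left hxA
          have := hd1 x hxB
          simp only [hxA, if_false]
          omega
      · intro x hx y hy hxy
        by_cases hxA : x ∈ A <;> by_cases hyA : y ∈ A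
        · simp only [hxA, hyA, if_true]
          exact hc2 x hxA y hyA hxy
        · have := hc1 x hxA
          simp only [hxA, hyA, if_true, if_false]
          omega
        · have := hc1 y hyA
          simp only [hxA, hyA, if_true, if_false]
          omega
        · have hxB : x ∈ B := by
            rw [← hAB] at hx
            exact hx.resolve_left hxA
          have hyB : y ∈ B := by
            rw [← hAB] at hy
            exact hy.resolve_left hyA
          simp only [hxA, hyA, if_false]
          have := hd2 x hxB y hyB hxy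
          omega

end General

/-! ### The construction -/

section Step

variable {W : Type} (B : SimpleGraph W) (N m : ℕ)

/-- The vertex set of the construction: `N` copies of `W`, and one vertex for each pair `(A, i)`
where `A` is an injection `{0, ..., m} → {0, ..., N - 1}` and `i ∈ {0, ..., m}`. -/
abbrev Vt (W : Type) (N m : ℕ) : Type := (Fin N × W) ⊕ ((Fin (m + 1) ↪ Fin N) × Fin (m + 1))

/-- Adjacency in the construction. -/
def stepAdj : Vt W N m → Vt W N m → Prop
  | Sum.inl p, Sum.inl q => p.1 = q.1 ∧ B.Adj p.2 q.2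
  | Sum.inl p, Sum.inr q => q.1 q.2 = p.1
  | Sum.inr p, Sum.inl q => p.1 p.2 = q.1
  | Sum.inr p, Sum.inr q => p.1 = q.1 ∧ p.2 ≠ q.2

/-- The construction: `N` disjoint copies of `B`; for every injection `A` a clique with
`m + 1` vertices `(A, i)`, and `(A, i)` is joined to all the vertices of copy `A i`. -/
def stepGraph : SimpleGraph (Vt W N m) where
  Adj := stepAdj B N m
  symm := ⟨by
    rintro (p | p) (q | q) h
    · exact ⟨h.1.symm, h.2.symm⟩
    · exact h
    · exact h
    · exact ⟨h.1.symm, h.2.symm⟩⟩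
  loopless := ⟨by
    rintro (p | p) h
    · exact B.loopless.irrefl _ h.2
    · exact h.2 rfl⟩

variable {N m}

theorem adj_ll {p q : Fin N × W} : (stepGraph B N m).Adj (Sum.inl p) (Sum.inl q) ↔
    p.1 = q.1 ∧ B.Adj p.2 q.2 := Iff.rfl

theorem adj_lr {p : Fin N × W} {q : (Fin (m + 1) ↪ Fin N) × Fin (m + 1)} :
    (stepGraph B N m).Adj (Sum.inl p) (Sum.inr q) ↔ q.1 q.2 = p.1 := Iff.rfl

theorem adj_rl {p : Fin N × W} {q : (Fin (m + 1) ↪ Fin N) × Fin (m + 1)} :
    (stepGraph B N m).Adj (Sum.inr q) (Sum.inl p) ↔ q.1 q.2 = p.1 := Iff.rfl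

theorem adj_rr {p q : (Fin (m + 1) ↪ Fin N) × Fin (m + 1)} :
    (stepGraph B N m).Adj (Sum.inr p) (Sum.inr q) ↔ p.1 = q.1 ∧ p.2 ≠ q.2 := Iff.rfl

/-- The trace of a set on the copy `y`. -/
def tr (s : Set (Vt W N m)) (y : Fin N) : Set W := {b | Sum.inl (y, b) ∈ s}

variable [Finite W]

/-- A clique contained in the copy `y` with second coordinates in `X`. -/
theorem card_le_copy (y : Fin N) (X : Set W) (t : Finset (Vt W N m))
    (ht : (stepGraph B N m).IsClique (↑t : Set (Vt W N m)))
    (h : ∀ x ∈ t, ∃ b ∈ X, x = Sum.inl (y, b)) : t.card ≤ om B X := by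
  classical
  have := Fintype.ofFinite W
  set u : Finset W := Finset.univ.filter (fun b => Sum.inl (y, b) ∈ t) with hu
  have hcard : t.card ≤ u.card := by
    apply Finset.card_le_card_of_surjOn (fun b : W => (Sum.inl (y, b) : Vt W N m))
    intro x hx
    obtain ⟨b, _, rfl⟩ := h x hx
    refine ⟨b, ?_, rfl⟩
    simpa [hu] using hx
  refine hcard.trans (le_om B u ?_ ?_)
  · intro b hb
    have hb' : (Sum.inl (y, b) : Vt W N m) ∈ t := by simpa [hu] using hb
    obtain ⟨b', hb1, hb2⟩ := h _ hb'
    have : b = b' := by simpa using hb2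
    rw [this]; exact hb1
  · intro a ha b hb hab
    have ha' : (Sum.inl (y, a) : Vt W N m) ∈ t := by simpa [hu] using ha
    have hb' : (Sum.inl (y, b) : Vt W N m) ∈ t := by simpa [hu] using hb
    exact ((adj_ll B).mp (ht ha' hb' (by simpa using hab))).2

/-- The lift of a finite set to copy `y`. -/
def lift (y : Fin N) (u : Finset W) : Finset (Vt W N m) :=
  u.map ⟨fun b => Sum.inl (y, b), fun a b h => by simpa using h⟩

theorem mem_lift {y : Fin N} {u : Finset W} {x : Vt W N m} :
    x ∈ lift y u ↔ ∃ b ∈ u, x = Sum.inl (y, b) := by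
  simp only [lift, Finset.mem_map]
  constructor
  · rintro ⟨b, hb, rfl⟩
    exact ⟨b, hb, rfl⟩
  · rintro ⟨b, hb, rfl⟩
    exact ⟨b, hb, rfl⟩

theorem card_lift (y : Fin N) (u : Finset W) : (lift (m := m) y u).card = u.card :=
  Finset.card_map _

theorem om_tr_le (s : Set (Vt W N m)) (y : Fin N) : om B (tr s y) ≤ om (stepGraph B N m) s := by
  obtain ⟨u, h1, h2, h3⟩ := exists_om B (tr s y)
  rw [← h3, ← card_lift (m := m) y u]
  apply le_om
  · intro x hx
    obtain ⟨b, hb, rfl⟩ := mem_lift.mp (Finset.mem_coe.mp hx)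
    exact h1 hb
  · intro x hx x' hx' hne
    obtain ⟨b, hb, rfl⟩ := mem_lift.mp (Finset.mem_coe.mp hx)
    obtain ⟨b', hb', rfl⟩ := mem_lift.mp (Finset.mem_coe.mp hx')
    exact ⟨rfl, h2 hb hb' (fun h => hne (by rw [h]))⟩

/-- Perfect divisibility of the construction. -/
theorem step_pd (hB : IsPerfectlyDivisible B) : IsPerfectlyDivisible (stepGraph B N m) := by
  classical
  have := Fintype.ofFinite W
  rw [pd_iff] at hB ⊢
  intro s
  by_cases hs : ∃ x ∈ s, ∃ y ∈ s, (stepGraph B N m).Adj x y
  swap
  · push Not at hs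
    exact ⟨s, ∅, by simp, by simp, perfS_of_indep _ hs, Or.inl rfl⟩
  choose A C hAC hd hA hC using fun y : Fin N => hB (tr s y)
  set T : Fin N → Prop := fun y => ∃ q, Sum.inr q ∈ s ∧ q.1 q.2 = y with hT
  refine ⟨{x | x ∈ s ∧ ∀ p, x = Sum.inl p → ¬ T p.1 ∧ p.2 ∈ A p.1},
    {x | x ∈ s ∧ ∃ p, x = Sum.inl p ∧ (T p.1 ∨ p.2 ∈ C p.1)}, ?_, ?_, ?_, Or.inr ?_⟩
  · ext x
    simp only [Set.mem_union, Set.mem_ofPred_eq]
    constructor
    · rintro (h | h) <;> exact h.1
    · intro hx
      rcases x with p | q
      · have hp : p.2 ∈ A p.1 ∪ C p.1 := by rw [hAC]; exact hx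
        by_cases hTp : T p.1
        · exact Or.inr ⟨hx, p, rfl, Or.inl hTp⟩
        · rcases hp with h | h
          · left
            refine ⟨hx, ?_⟩
            intro p' hp'
            obtain rfl : p = p' := by simpa using hp'
            exact ⟨hTp, h⟩
          · exact Or.inr ⟨hx, p, rfl, Or.inr h⟩
      · left
        exact ⟨hx, fun p hp => by simp at hp⟩
  · rw [Set.disjoint_left]
    rintro x ⟨_, h1⟩ ⟨_, p, rfl, h2⟩
    obtain ⟨h3, h4⟩ := h1 p rfl
    rcases h2 with h2 | h2
    · exact h3 h2
    · exact Set.disjoint_left.mp (hd p.1) h4 h2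
  · -- perfection of the first part
    intro t ht
    have htr : ∀ y b, b ∈ tr t y → ¬ T y ∧ b ∈ A y := fun y b hb => (ht hb).2 (y, b) rfl
    have htrA : ∀ y, tr t y ⊆ A y := fun y b hb => (htr y b hb).2
    choose c hc1 hc2 using fun y : Fin N => hA y (tr t y) (htrA y)
    refine ⟨fun x => match x with
      | Sum.inl p => c p.1 p.2
      | Sum.inr q => (Finset.univ.filter (fun j : Fin (m + 1) =>
          j < q.2 ∧ (Sum.inr (q.1, j) : Vt W N m) ∈ t)).card, ?_, ?_⟩
    · rintro (p | q) hx
      · exact (hc1 p.1 p.2 hx).trans_le (om_tr_le B t p.1)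
      · -- the clique formed by the predecessors and the vertex itself
        set J := Finset.univ.filter (fun j : Fin (m + 1) =>
          j < q.2 ∧ (Sum.inr (q.1, j) : Vt W N m) ∈ t) with hJ
        have hmem : ∀ j ∈ insert q.2 J, (Sum.inr (q.1, j) : Vt W N m) ∈ t := by
          intro j hj
          rcases Finset.mem_insert.mp hj with rfl | hj
          · exact hx
          · exact (Finset.mem_filter.mp hj).2.2
        have hnot : q.2 ∉ J := by
          intro h
          exact lt_irrefl _ (Finset.mem_filter.mp h).2.1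
        have hle := le_om (stepGraph B N m) (s := t)
          ((insert q.2 J).map ⟨fun j => (Sum.inr (q.1, j) : Vt W N m),
            fun a b h => by simpa using h⟩) (by
            intro x hx
            rw [Finset.mem_coe, Finset.mem_map] at hx
            obtain ⟨j, hj, rfl⟩ := hx
            exact hmem j hj) (by
            intro x hx x' hx' hne
            rw [Finset.mem_coe, Finset.mem_map] at hx hx'
            obtain ⟨j, hj, rfl⟩ := hx
            obtain ⟨j', hj', rfl⟩ := hx'
            exact ⟨rfl, fun h => hne (by simp only at h ⊢; rw [h])⟩)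
        rw [Finset.card_map, Finset.card_insert_of_notMem hnot] at hle
        exact hle
    · rintro (p | q) hx (p' | q') hy hxy
      · obtain ⟨h1, h2⟩ := hxy
        have hy' : Sum.inl (p.1, p'.2) ∈ t := by rw [h1]; exact hy
        have := hc2 p.1 p.2 hx p'.2 hy' h2
        simpa only [← h1] using this
      · exact absurd ⟨q', (ht hy).1, hxy⟩ (htr p.1 p.2 hx).1
      · exact absurd ⟨q, (ht hx).1, hxy⟩ (htr p'.1 p'.2 hy).1
      · -- two clique vertices
        obtain ⟨h1, h2⟩ := hxy
        have key : ∀ (a : Fin (m + 1) ↪ Fin N) (i j : Fin (m + 1)), i < j →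
            (Sum.inr (a, i) : Vt W N m) ∈ t →
            (Finset.univ.filter (fun l : Fin (m + 1) =>
              l < i ∧ (Sum.inr (a, l) : Vt W N m) ∈ t)).card <
            (Finset.univ.filter (fun l : Fin (m + 1) =>
              l < j ∧ (Sum.inr (a, l) : Vt W N m) ∈ t)).card := by
          intro a i j hij hi
          apply Finset.card_lt_card
          rw [Finset.ssubset_iff_of_subset]
          · refine ⟨i, ?_, ?_⟩
            · simp [hij, hi]
            · simp
          · intro l hl
            simp only [Finset.mem_filter, Finset.mem_univ, true_and] at hl ⊢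
            exact ⟨hl.1.trans hij, hl.2⟩
        obtain ⟨a, i⟩ := q
        obtain ⟨a', j⟩ := q'
        simp only at h1 h2
        subst h1
        rcases lt_or_gt_of_ne h2 with h | h
        · exact (key a i j h hx).ne
        · exact (key a j i h hy).ne'
  · -- the clique number drops
    set P : Set (Vt W N m) := {x | x ∈ s ∧ ∃ p, x = Sum.inl p ∧ (T p.1 ∨ p.2 ∈ C p.1)} with hP
    obtain ⟨t, ht1, ht2, ht3⟩ := exists_om (stepGraph B N m) P
    rw [← ht3]
    rcases t.eq_empty_or_nonempty with rfl | ⟨x, hx⟩
    · obtain ⟨x, hx, _⟩ := hs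
      simpa using om_pos (stepGraph B N m) hx
    · obtain ⟨hxs, p, rfl, hpT⟩ := ht1 hx
      have hall : ∀ z ∈ t, ∃ b, z = Sum.inl (p.1, b) ∧ Sum.inl (p.1, b) ∈ s ∧
          (T p.1 ∨ b ∈ C p.1) := by
        intro z hz
        obtain ⟨hzs, p', rfl, hp'⟩ := ht1 hz
        by_cases hne : (Sum.inl p : Vt W N m) = Sum.inl p'
        · obtain rfl : p = p' := by simpa using hne
          exact ⟨p.2, rfl, hzs, hp'⟩
        · have h1 := ((adj_ll B).mp (ht2 hx hz hne)).1
          refine ⟨p'.2, by rw [h1], by rw [h1]; exact hzs, by rw [h1]; exact hp'⟩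
      by_cases hTp : T p.1
      · obtain ⟨q, hq1, hq2⟩ := hTp
        have hqt : (Sum.inr q : Vt W N m) ∉ t := by
          intro h
          obtain ⟨b, hb, _⟩ := hall _ h
          simp at hb
        have hle := le_om (stepGraph B N m) (s := s) (insert (Sum.inr q) t) (by
          intro z hz
          rw [Finset.mem_coe, Finset.mem_insert] at hz
          rcases hz with rfl | hz
          · exact hq1
          · exact (ht1 hz).1) (by
          intro z hz z' hz' hne
          rw [Finset.mem_coe, Finset.mem_insert] at hz hz'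
          rcases hz with rfl | hz <;> rcases hz' with rfl | hz'
          · exact absurd rfl hne
          · obtain ⟨b, rfl, _⟩ := hall _ hz'
            exact hq2
          · obtain ⟨b, rfl, _⟩ := hall _ hz
            exact hq2
          · exact ht2 hz hz' hne)
        rw [Finset.card_insert_of_notMem hqt] at hle
        exact hle
      · have hle := card_le_copy B p.1 (C p.1) t ht2 (by
          intro z hz
          obtain ⟨b, hb1, _, hb3⟩ := hall z hz
          exact ⟨b, hb3.resolve_left hTp, hb1⟩)
        rcases hC p.1 with hemp | hlt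
        · exfalso
          obtain ⟨b, _, _, hb3⟩ := hall _ hx
          have := hb3.resolve_left hTp
          rw [hemp] at this
          exact this
        · exact (hle.trans_lt hlt).trans_le (om_tr_le B s p.1)

/-- Two vertices of the same copy are adjacent in the complement of the construction iff they are
adjacent in the complement of `B`. -/
theorem co_same (y : Fin N) (a b : W) :
    (stepGraph B N m)ᶜ.Adj (Sum.inl (y, a)) (Sum.inl (y, b)) ↔ Bᶜ.Adj a b := by
  rw [SimpleGraph.compl_adj, SimpleGraph.compl_adj, adj_ll]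
  simp

theorem co_diff {p q : Fin N × W} (h : p.1 ≠ q.1) :
    (stepGraph B N m)ᶜ.Adj (Sum.inl p) (Sum.inl q) := by
  rw [SimpleGraph.compl_adj, adj_ll]
  refine ⟨fun h' => h ?_, fun h' => h h'.1⟩
  have : p = q := by simpa using h'
  rw [this]

theorem co_lr {p : Fin N × W} {q : (Fin (m + 1) ↪ Fin N) × Fin (m + 1)} :
    (stepGraph B N m)ᶜ.Adj (Sum.inl p) (Sum.inr q) ↔ q.1 q.2 ≠ p.1 := by
  rw [SimpleGraph.compl_adj, adj_lr]
  simp

theorem co_rl {p : Fin N × W} {q : (Fin (m + 1) ↪ Fin N) × Fin (m + 1)} :
    (stepGraph B N m)ᶜ.Adj (Sum.inr q) (Sum.inl p) ↔ q.1 q.2 ≠ p.1 := by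
  rw [SimpleGraph.compl_adj, adj_rl]
  simp

theorem co_rr {p q : (Fin (m + 1) ↪ Fin N) × Fin (m + 1)} :
    (stepGraph B N m)ᶜ.Adj (Sum.inr p) (Sum.inr q) ↔ p.1 ≠ q.1 := by
  rw [SimpleGraph.compl_adj, adj_rr]
  constructor
  · rintro ⟨h1, h2⟩ h3
    apply h2
    refine ⟨h3, fun h4 => h1 ?_⟩
    rw [Prod.ext h3 h4]
  · intro h
    refine ⟨fun h' => h ?_, fun h' => h h'.1⟩
    have : p = q := by simpa using h'
    rw [this]

/-- The main step for the complement. -/
theorem co_aux (hB : IsPerfectlyDivisible Bᶜ) (s : Set (Vt W N m)) (y : Fin N)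
    (S0 : Set (Fin (m + 1) ↪ Fin N)) (hS0 : S0.Subsingleton) (x0 : Vt W N m) (hx0 : x0 ∈ s)
    (h1 : ∀ p : Fin N × W, p.1 ≠ y → (stepGraph B N m)ᶜ.Adj x0 (Sum.inl p))
    (h2 : ∀ q, Sum.inr q ∈ s → q.1 ∉ S0 → (stepGraph B N m)ᶜ.Adj x0 (Sum.inr q)) :
    ∃ A C : Set (Vt W N m), A ∪ C = s ∧ Disjoint A C ∧
      PerfS (stepGraph B N m)ᶜ A ∧ (C = ∅ ∨ om (stepGraph B N m)ᶜ C < om (stepGraph B N m)ᶜ s) := by
  classical
  have := Fintype.ofFinite W
  rw [pd_iff] at hB
  obtain ⟨A, C, hAC, hd, hA, hC⟩ := hB (tr s y)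
  refine ⟨{x | x ∈ s ∧ ((∃ b ∈ A, x = Sum.inl (y, b)) ∨ ∃ q, x = Sum.inr q ∧ q.1 ∈ S0)},
    {x | x ∈ s ∧ ((∃ b ∈ C, x = Sum.inl (y, b)) ∨ (∃ p, x = Sum.inl p ∧ p.1 ≠ y) ∨
      ∃ q, x = Sum.inr q ∧ q.1 ∉ S0)}, ?_, ?_, ?_, Or.inr ?_⟩
  · ext x
    simp only [Set.mem_union, Set.mem_ofPred_eq]
    constructor
    · rintro (h | h) <;> exact h.1
    · intro hx
      rcases x with p | q
      · by_cases hp : p.1 = y
        · have hp' : p = (y, p.2) := by rw [← hp]
          have hmem : p.2 ∈ A ∪ C := by
            rw [hAC]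
            change Sum.inl (y, p.2) ∈ s
            rw [← hp']; exact hx
          rcases hmem with h | h
          · exact Or.inl ⟨hx, Or.inl ⟨p.2, h, by rw [← hp']⟩⟩
          · exact Or.inr ⟨hx, Or.inl ⟨p.2, h, by rw [← hp']⟩⟩
        · exact Or.inr ⟨hx, Or.inr (Or.inl ⟨p, rfl, hp⟩)⟩
      · by_cases hq : q.1 ∈ S0
        · exact Or.inl ⟨hx, Or.inr ⟨q, rfl, hq⟩⟩
        · exact Or.inr ⟨hx, Or.inr (Or.inr ⟨q, rfl, hq⟩)⟩
  · rw [Set.disjoint_left]
    rintro x ⟨_, (⟨b, hb, rfl⟩ | ⟨q, rfl, hq⟩)⟩ ⟨_, (⟨b', hb', h⟩ | ⟨p, h, hp⟩ | ⟨q', h, hq'⟩)⟩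
    · have : b = b' := by simpa using h
      subst this
      exact Set.disjoint_left.mp hd hb hb'
    · have : (y, b) = p := by simpa using h
      subst this
      exact hp rfl
    · simp at h
    · simp at h
    · simp at h
    · have : q = q' := by simpa using h
      subst this
      exact hq' hq
  · -- perfection
    intro t ht
    have htl : ∀ p, Sum.inl p ∈ t → p.1 = y ∧ p.2 ∈ A := by
      intro p hp
      obtain ⟨_, (⟨b, hb, h⟩ | ⟨q, h, _⟩)⟩ := ht hp
      · have : p = (y, b) := by simpa using h
        subst this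
        exact ⟨rfl, hb⟩
      · simp at h
    have htr' : ∀ q, Sum.inr q ∈ t → q.1 ∈ S0 := by
      intro q hq
      obtain ⟨_, (⟨b, hb, h⟩ | ⟨q', h, hq'⟩)⟩ := ht hq
      · simp at h
      · have : q = q' := by simpa using h
        subst this
        exact hq'
    have htrA : tr t y ⊆ A := fun b hb => (htl _ hb).2
    obtain ⟨c, hc1, hc2⟩ := hA (tr t y) htrA
    obtain ⟨u, hu1, hu2, hu3⟩ := exists_om Bᶜ (tr t y)
    -- the lift of `u`
    have hlift_sub : (↑(lift (m := m) y u) : Set (Vt W N m)) ⊆ t := by
      intro x hx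
      obtain ⟨b, hb, rfl⟩ := mem_lift.mp (Finset.mem_coe.mp hx)
      exact hu1 hb
    have hlift_cl : (stepGraph B N m)ᶜ.IsClique (↑(lift (m := m) y u) : Set (Vt W N m)) := by
      intro x hx x' hx' hne
      obtain ⟨b, hb, rfl⟩ := mem_lift.mp (Finset.mem_coe.mp hx)
      obtain ⟨b', hb', rfl⟩ := mem_lift.mp (Finset.mem_coe.mp hx')
      rw [co_same]
      exact hu2 hb hb' (fun h => hne (by rw [h]))
    have hle1 : om Bᶜ (tr t y) ≤ om (stepGraph B N m)ᶜ t := by
      rw [← hu3, ← card_lift (m := m) y u]
      exact le_om _ _ hlift_sub hlift_cl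
    have hle2 : ∀ q', Sum.inr q' ∈ t → q'.1 q'.2 ≠ y →
        om Bᶜ (tr t y) + 1 ≤ om (stepGraph B N m)ᶜ t := by
      intro q' hq1 hq2
      have hnot : (Sum.inr q' : Vt W N m) ∉ lift y u := by
        intro h
        obtain ⟨b, _, h⟩ := mem_lift.mp h
        simp at h
      rw [← hu3, ← card_lift (m := m) y u, ← Finset.card_insert_of_notMem hnot]
      apply le_om
      · intro z hz
        rw [Finset.mem_coe, Finset.mem_insert] at hz
        rcases hz with rfl | hz
        · exact hq1
        · exact hlift_sub hz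
      · intro z hz z' hz' hne
        rw [Finset.mem_coe, Finset.mem_insert] at hz hz'
        rcases hz with rfl | hz <;> rcases hz' with rfl | hz'
        · exact absurd rfl hne
        · obtain ⟨b, _, rfl⟩ := mem_lift.mp hz'
          exact (co_rl B).mpr hq2
        · obtain ⟨b, _, rfl⟩ := mem_lift.mp hz
          exact (co_lr B).mpr hq2
        · exact hlift_cl hz hz' hne
    refine ⟨fun x => match x with
      | Sum.inl p => c p.2
      | Sum.inr _ => if ∃ q', (Sum.inr q' : Vt W N m) ∈ t ∧ q'.1 q'.2 ≠ y
          then om Bᶜ (tr t y) else 0, ?_, ?_⟩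
    · rintro (p | q) hx
      · obtain ⟨h3, h4⟩ := htl p hx
        have hp' : p = (y, p.2) := by rw [← h3]
        have : p.2 ∈ tr t y := by
          change Sum.inl (y, p.2) ∈ t
          rw [← hp']; exact hx
        exact (hc1 _ this).trans_le hle1
      · by_cases hex : ∃ q', (Sum.inr q' : Vt W N m) ∈ t ∧ q'.1 q'.2 ≠ y
        · simp only [hex, if_true]
          obtain ⟨q', hq1, hq2⟩ := hex
          exact hle2 q' hq1 hq2
        · simp only [hex, if_false]
          exact om_pos _ hx
    · have hlr : ∀ p q, (Sum.inl p : Vt W N m) ∈ t → (Sum.inr q : Vt W N m) ∈ t →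
          q.1 q.2 ≠ p.1 → c p.2 < if ∃ q', (Sum.inr q' : Vt W N m) ∈ t ∧ q'.1 q'.2 ≠ y
          then om Bᶜ (tr t y) else 0 := by
        intro p q hp hq hne
        obtain ⟨h3, h4⟩ := htl p hp
        have hp' : p = (y, p.2) := by rw [← h3]
        have hmem : p.2 ∈ tr t y := by
          change Sum.inl (y, p.2) ∈ t
          rw [← hp']; exact hp
        have hex : ∃ q', (Sum.inr q' : Vt W N m) ∈ t ∧ q'.1 q'.2 ≠ y := ⟨q, hq, by
          rw [← h3]; exact hne⟩
        simp only [hex, if_true]
        exact hc1 _ hmem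
      rintro (p | q) hx (p' | q') hy hxy
      · obtain ⟨h3, h4⟩ := htl p hx
        obtain ⟨h3', h4'⟩ := htl p' hy
        have hp : p = (y, p.2) := by rw [← h3]
        have hp' : p' = (y, p'.2) := by rw [← h3']
        have hm : p.2 ∈ tr t y := by
          change Sum.inl (y, p.2) ∈ t
          rw [← hp]; exact hx
        have hm' : p'.2 ∈ tr t y := by
          change Sum.inl (y, p'.2) ∈ t
          rw [← hp']; exact hy
        have hadj : Bᶜ.Adj p.2 p'.2 := by
          rw [hp, hp'] at hxy
          exact (co_same B y _ _).mp hxy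
        exact hc2 _ hm _ hm' hadj
      · exact (hlr p q' hx hy ((co_lr B).mp hxy)).ne
      · exact (hlr p' q hy hx ((co_rl B).mp hxy)).ne'
      · exact absurd (hS0 (htr' q hx) (htr' q' hy)) ((co_rr B).mp hxy)
  · -- the clique number drops
    set P : Set (Vt W N m) := {x | x ∈ s ∧ ((∃ b ∈ C, x = Sum.inl (y, b)) ∨
      (∃ p, x = Sum.inl p ∧ p.1 ≠ y) ∨ ∃ q, x = Sum.inr q ∧ q.1 ∉ S0)} with hP
    obtain ⟨t, ht1, ht2, ht3⟩ := exists_om (stepGraph B N m)ᶜ P
    rw [← ht3]
    set t' := t.filter (fun x => ∃ b, x = Sum.inl (y, b)) with ht'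
    set t'' := t.filter (fun x => ¬ ∃ b, x = Sum.inl (y, b)) with ht''
    have hsplit : t'.card + t''.card = t.card := Finset.card_filter_add_card_filter_not _
    -- elements of `t` in copy `y` have second coordinate in `C`
    have hcopy : ∀ b, Sum.inl (y, b) ∈ t → b ∈ C := by
      intro b hb
      obtain ⟨_, (⟨b', hb', h⟩ | ⟨p, h, hp⟩ | ⟨q, h, _⟩)⟩ := ht1 hb
      · have : b = b' := by simpa using h
        rw [this]; exact hb'
      · have : (y, b) = p := by simpa using h
        rw [← this] at hp
        exact absurd rfl hp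
      · simp at h
    rcases t'.eq_empty_or_nonempty with hemp | hne
    · -- add the pivot
      have hadj : ∀ x ∈ t, (stepGraph B N m)ᶜ.Adj x0 x := by
        intro x hx
        obtain ⟨hxs, (⟨b', hb', rfl⟩ | ⟨p, rfl, hp⟩ | ⟨q, rfl, hq⟩)⟩ := ht1 hx
        · have : (Sum.inl (y, b') : Vt W N m) ∈ t' := Finset.mem_filter.mpr ⟨hx, b', rfl⟩
          rw [hemp] at this
          simp at this
        · exact h1 p hp
        · exact h2 q hxs hq
      have hnot : x0 ∉ t := fun h => (hadj x0 h).ne rfl
      have hle := le_om (stepGraph B N m)ᶜ (s := s) (insert x0 t) (by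
        intro z hz
        rw [Finset.mem_coe, Finset.mem_insert] at hz
        rcases hz with rfl | hz
        · exact hx0
        · exact (ht1 hz).1) (by
        intro z hz z' hz' hne
        rw [Finset.mem_coe, Finset.mem_insert] at hz hz'
        rcases hz with rfl | hz <;> rcases hz' with rfl | hz'
        · exact absurd rfl hne
        · exact hadj _ hz'
        · exact (hadj _ hz).symm
        · exact ht2 hz hz' hne)
      rw [Finset.card_insert_of_notMem hnot] at hle
      exact hle
    · -- replace the part in copy `y`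
      obtain ⟨x1, hx1⟩ := hne
      obtain ⟨hx1t, b1, rfl⟩ := Finset.mem_filter.mp hx1
      have hClt : om Bᶜ C < om Bᶜ (tr s y) := by
        rcases hC with h | h
        · exfalso
          have := hcopy b1 hx1t
          rw [h] at this
          exact this
        · exact h
      -- size of `t'`
      set v : Finset W := Finset.univ.filter (fun b => Sum.inl (y, b) ∈ t) with hv
      have hcard : t'.card ≤ v.card := by
        apply Finset.card_le_card_of_surjOn (fun b : W => (Sum.inl (y, b) : Vt W N m))
        intro x hx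
        obtain ⟨hx1, b, rfl⟩ := Finset.mem_filter.mp (Finset.mem_coe.mp hx)
        exact ⟨b, by simpa [hv] using hx1, rfl⟩
      have hvC : v.card ≤ om Bᶜ C := by
        apply le_om
        · intro b hb
          exact hcopy b (by simpa [hv] using hb)
        · intro a ha b hb hab
          have ha' : (Sum.inl (y, a) : Vt W N m) ∈ t := by simpa [hv] using ha
          have hb' : (Sum.inl (y, b) : Vt W N m) ∈ t := by simpa [hv] using hb
          exact (co_same B y a b).mp (ht2 ha' hb' (by simpa using hab))
      obtain ⟨u, hu1, hu2, hu3⟩ := exists_om Bᶜ (tr s y)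
      have hdisj : Disjoint t'' (lift (m := m) y u) := by
        rw [Finset.disjoint_left]
        intro x hx hx'
        obtain ⟨b, _, rfl⟩ := mem_lift.mp hx'
        exact (Finset.mem_filter.mp hx).2 ⟨b, rfl⟩
      have hcross : ∀ x ∈ t'', ∀ b, (stepGraph B N m)ᶜ.Adj x (Sum.inl (y, b)) := by
        intro x hx b
        obtain ⟨hxt, hxn⟩ := Finset.mem_filter.mp hx
        rcases x with p | q
        · apply co_diff
          intro h
          apply hxn
          refine ⟨p.2, ?_⟩
          have : p = (y, p.2) := by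
            simp only at h
            rw [← h]
          rw [← this]
        · have := ht2 hxt hx1t (by simp)
          rw [co_rl] at this ⊢
          exact this
      have hle := le_om (stepGraph B N m)ᶜ (s := s) (t'' ∪ lift y u) (by
        intro z hz
        rw [Finset.mem_coe, Finset.mem_union] at hz
        rcases hz with hz | hz
        · exact (ht1 (Finset.mem_filter.mp hz).1).1
        · obtain ⟨b, hb, rfl⟩ := mem_lift.mp hz
          exact hu1 hb) (by
        intro z hz z' hz' hne
        rw [Finset.mem_coe, Finset.mem_union] at hz hz'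
        rcases hz with hz | hz <;> rcases hz' with hz' | hz'
        · exact ht2 (Finset.mem_filter.mp hz).1 (Finset.mem_filter.mp hz').1 hne
        · obtain ⟨b, _, rfl⟩ := mem_lift.mp hz'
          exact hcross z hz b
        · obtain ⟨b, _, rfl⟩ := mem_lift.mp hz
          exact (hcross z' hz' b).symm
        · obtain ⟨b, hb, rfl⟩ := mem_lift.mp hz
          obtain ⟨b', hb', rfl⟩ := mem_lift.mp hz'
          rw [co_same]
          exact hu2 hb hb' (fun h => hne (by rw [h])))
      rw [Finset.card_union_of_disjoint hdisj, card_lift] at hle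
      omega

/-- Perfect divisibility of the complement of the construction. -/
theorem step_co_pd (hB : IsPerfectlyDivisible Bᶜ) :
    IsPerfectlyDivisible (stepGraph B N m)ᶜ := by
  classical
  have := Fintype.ofFinite W
  rw [pd_iff]
  intro s
  by_cases hq : ∃ q, (Sum.inr q : Vt W N m) ∈ s
  · obtain ⟨q0, hq0⟩ := hq
    apply co_aux B hB s (q0.1 q0.2) {q0.1} Set.subsingleton_singleton (Sum.inr q0) hq0
    · intro p hp
      rw [co_rl]
      exact hp.symm
    · intro q _ hq
      rw [co_rr]
      intro h
      exact hq h.symm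
  · push Not at hq
    rcases s.eq_empty_or_nonempty with rfl | ⟨x0, hx0⟩
    · refine ⟨∅, ∅, by simp, by simp, ?_, Or.inl rfl⟩
      apply perfS_of_indep
      intro x hx
      exact absurd hx (Set.notMem_empty x)
    · rcases x0 with p0 | q0
      · apply co_aux B hB s p0.1 ∅ Set.subsingleton_empty (Sum.inl p0) hx0
        · intro p hp
          exact co_diff B hp.symm
        · intro q hq' _
          exact absurd hq' (hq q)
      · exact absurd hx0 (hq q0)

/-- The clique number of the construction. -/
theorem step_cliqueNum (hBm : B.cliqueNum = m) (hN : m + 1 ≤ N) :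
    (stepGraph B N m).cliqueNum = m + 1 := by
  classical
  have := Fintype.ofFinite W
  rw [← om_univ]
  apply le_antisymm
  · apply om_le
    intro t _ ht
    have hsplit := Finset.card_toLeft_add_card_toRight (u := t)
    -- the left part
    have hL : t.toLeft.card ≤ m := by
      rcases t.toLeft.eq_empty_or_nonempty with h | ⟨p, hp⟩
      · rw [h]; simp
      · have hm : om B Set.univ = m := by rw [om_univ, hBm]
        have hmap : (t.toLeft.map (Function.Embedding.inl : _ ↪ Vt W N m)).card =
            t.toLeft.card := Finset.card_map _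
        refine hmap.symm.le.trans (le_trans ?_ hm.le)
        apply card_le_copy B p.1
        · intro x hx x' hx' hne
          rw [Finset.mem_coe, Finset.mem_map] at hx hx'
          obtain ⟨a, ha, rfl⟩ := hx
          obtain ⟨b, hb, rfl⟩ := hx'
          exact ht (Finset.mem_toLeft.mp ha) (Finset.mem_toLeft.mp hb) hne
        · intro x hx
          rw [Finset.mem_map] at hx
          obtain ⟨a, ha, rfl⟩ := hx
          refine ⟨a.2, trivial, ?_⟩
          by_cases hpa : (Sum.inl p : Vt W N m) = Sum.inl a
          · have : p = a := by simpa using hpa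
            rw [this]; rfl
          · have h1 := ((adj_ll B).mp (ht (Finset.mem_toLeft.mp hp)
              (Finset.mem_toLeft.mp ha) hpa)).1
            rw [h1]; rfl
    have hRq : ∀ q ∈ t.toRight, ∀ q' ∈ t.toRight, q.1 = q'.1 := by
      intro q hq q' hq'
      by_cases h : (Sum.inr q : Vt W N m) = Sum.inr q'
      · have : q = q' := by simpa using h
        rw [this]
      · exact ((adj_rr B).mp (ht (Finset.mem_toRight.mp hq) (Finset.mem_toRight.mp hq') h)).1
    have hR : t.toRight.card ≤ m + 1 := by
      have hinj : Set.InjOn (Prod.snd : (Fin (m + 1) ↪ Fin N) × Fin (m + 1) → Fin (m + 1))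
          (↑t.toRight : Set _) := by
        intro q hq q' hq' h
        exact Prod.ext (hRq q hq q' hq') h
      rw [← Finset.card_image_of_injOn hinj]
      exact (Finset.card_le_univ _).trans (by simp)
    rcases t.toLeft.eq_empty_or_nonempty with h | ⟨p, hp⟩
    · rw [h] at hsplit
      simp only [Finset.card_empty, zero_add] at hsplit
      omega
    · have hR1 : t.toRight.card ≤ 1 := by
        rw [Finset.card_le_one]
        intro q hq q' hq'
        have e1 := (adj_lr B).mp (ht (Finset.mem_toLeft.mp hp) (Finset.mem_toRight.mp hq)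
          (by simp))
        have e2 := (adj_lr B).mp (ht (Finset.mem_toLeft.mp hp) (Finset.mem_toRight.mp hq')
          (by simp))
        have e3 := hRq q hq q' hq'
        rw [← e3] at e2
        exact Prod.ext e3 (q.1.injective (e1.trans e2.symm))
      omega
  · -- a clique of size `m + 1`
    let a : Fin (m + 1) ↪ Fin N := (Fin.castLEEmb hN)
    have hle := le_om (stepGraph B N m) (s := Set.univ)
      ((Finset.univ : Finset (Fin (m + 1))).map ⟨fun j => (Sum.inr (a, j) : Vt W N m),
        fun i j h => by simpa using h⟩) (Set.subset_univ _) (by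
        intro x hx x' hx' hne
        rw [Finset.mem_coe, Finset.mem_map] at hx hx'
        obtain ⟨j, hj, rfl⟩ := hx
        obtain ⟨j', hj', rfl⟩ := hx'
        exact ⟨rfl, fun h => hne (by simp only at h ⊢; rw [h])⟩)
    rw [Finset.card_map, Finset.card_univ, Fintype.card_fin] at hle
    exact hle

/-- The chromatic number of the construction grows. -/
theorem step_chromatic (c : ℕ) (hBc : ∀ n, B.Colorable n → c ≤ n)
    (hN : m * 2 ^ (c + m) < N) : ∀ n, (stepGraph B N m).Colorable n → c + (m + 1) ≤ n := by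
  classical
  have := Fintype.ofFinite W
  intro n hn
  by_contra hlt
  have hn' : (stepGraph B N m).Colorable (c + m) := hn.mono (by omega)
  obtain ⟨col⟩ := hn'
  -- colour set of copy `y`
  set X : Fin N → Finset (Fin (c + m)) := fun y =>
    (Finset.univ : Finset W).image (fun b => col (Sum.inl (y, b))) with hX
  have hcard : Fintype.card (Finset (Fin (c + m))) * m < Fintype.card (Fin N) := by
    rw [Fintype.card_finset, Fintype.card_fin, Fintype.card_fin, mul_comm]
    exact hN
  obtain ⟨X0, hX0⟩ := Fintype.exists_lt_card_fiber_of_mul_lt_card X hcard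
  -- an injection into the fibre
  set Φ : Finset (Fin N) := Finset.univ.filter (fun y => X y = X0) with hΦ
  have hemb : Nonempty (Fin (m + 1) ↪ Φ) := by
    apply Function.Embedding.nonempty_of_card_le
    rw [Fintype.card_fin, Fintype.card_coe]
    exact hX0
  obtain ⟨e⟩ := hemb
  set a : Fin (m + 1) ↪ Fin N := e.trans (Function.Embedding.subtype _) with ha
  have haX : ∀ i, X (a i) = X0 := fun i => (Finset.mem_filter.mp (e i).2).2
  -- `X0` has at least `c` elements
  have hX0c : c ≤ X0.card := by
    apply hBc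
    have hmem : ∀ b : W, col (Sum.inl (a 0, b)) ∈ X0 := by
      intro b
      rw [← haX 0]
      exact Finset.mem_image_of_mem _ (Finset.mem_univ b)
    have hcol : B.Colorable (Fintype.card X0) := by
      apply SimpleGraph.Coloring.colorable
      refine SimpleGraph.Coloring.mk (fun b => (⟨col (Sum.inl (a 0, b)), hmem b⟩ : X0)) ?_
      intro b b' hbb h
      have h' : col (Sum.inl (a 0, b)) = col (Sum.inl (a 0, b')) := congrArg Subtype.val h
      exact col.valid ((adj_ll B (m := m) (p := (a 0, b)) (q := (a 0, b'))).mpr ⟨rfl, hbb⟩) h'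
    rwa [Fintype.card_coe] at hcol
  -- the clique uses `m + 1` further colours
  set K : Finset (Fin (c + m)) :=
    (Finset.univ : Finset (Fin (m + 1))).image (fun i => col (Sum.inr (a, i))) with hK
  have hKcard : K.card = m + 1 := by
    rw [hK, Finset.card_image_of_injective, Finset.card_univ, Fintype.card_fin]
    intro i j hij
    by_contra hne
    exact col.valid ((adj_rr B (p := (a, i)) (q := (a, j))).mpr ⟨rfl, hne⟩) hij
  have hdisj : Disjoint X0 K := by
    rw [Finset.disjoint_left]
    intro z hz hz'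
    obtain ⟨i, _, hi⟩ := Finset.mem_image.mp hz'
    rw [← haX i] at hz
    obtain ⟨b, _, hb⟩ := Finset.mem_image.mp hz
    exact col.valid ((adj_lr B (p := (a i, b)) (q := (a, i))).mpr rfl) (hb.trans hi.symm)
  have h1 : (X0 ∪ K).card ≤ c + m := by
    have := Finset.card_le_univ (X0 ∪ K)
    rwa [Fintype.card_fin] at this
  rw [Finset.card_union_of_disjoint hdisj, hKcard] at h1
  omega

end Step

/-- For every `k` there is a graph in the class with clique number `k` and chromatic number at
least `C(k + 1, 2)`. -/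
theorem exists_extremal (k : ℕ) : ∃ (V : Type) (_ : Finite V) (G : SimpleGraph V),
    IsPerfectlyDivisible G ∧ IsPerfectlyDivisible Gᶜ ∧ G.cliqueNum = k ∧
      ∀ n, G.Colorable n → (k + 1).choose 2 ≤ n := by
  classical
  induction k with
  | zero =>
    refine ⟨Empty, inferInstance, ⊥, ?_, ?_, ?_, ?_⟩
    · rintro s ⟨x, -⟩
      exact x.elim
    · rintro s ⟨x, -⟩
      exact x.elim
    · rw [← om_univ]
      have : (Set.univ : Set Empty) = ∅ := by ext x; exact x.elim
      rw [this]
      exact om_empty _
    · intro n _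
      simp
  | succ m ih =>
    obtain ⟨W, hW, B, h1, h2, h3, h4⟩ := ih
    set c := (m + 1).choose 2 with hc
    set N := m * 2 ^ (c + m) + m + 1 with hN
    refine ⟨Vt W N m, inferInstance, stepGraph B N m, step_pd B h1, step_co_pd B h2,
      step_cliqueNum B h3 (by omega), ?_⟩
    intro n hn
    have := step_chromatic B c h4 (N := N) (m := m) (by omega) n hn
    have hch : (m + 1 + 1).choose 2 = (m + 1) + (m + 1).choose 2 := by
      rw [Nat.choose_succ_succ' (m + 1) 1, Nat.choose_one_right]
    rw [hch]
    omega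

/-- For every `k`, the maximum chromatic number of a finite graph `G` with clique number `k` such
that `G` and its complement are perfectly divisible is exactly `C(k + 1, 2)`. -/
theorem result (k : ℕ) : IsGreatest {c : ℕ | ∃ (V : Type) (_ : Finite V) (G : SimpleGraph V),
    IsPerfectlyDivisible G ∧ IsPerfectlyDivisible Gᶜ ∧ G.cliqueNum = k ∧
      G.chromaticNumber = (c : ℕ∞)} ((k + 1).choose 2) := by
  classical
  have upper : ∀ (V : Type) (_ : Finite V) (G : SimpleGraph V), IsPerfectlyDivisible G →
      G.cliqueNum = k → G.Colorable ((k + 1).choose 2) := by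
    intro V _ G h1 h3
    rw [colorable_univ_iff]
    have := hoang G h1 k Set.univ (by rw [om_univ, h3])
    rwa [om_univ, h3] at this
  constructor
  · obtain ⟨V, hV, G, h1, h2, h3, h4⟩ := exists_extremal k
    refine ⟨V, hV, G, h1, h2, h3, ?_⟩
    apply le_antisymm
    · exact SimpleGraph.chromaticNumber_le_iff_colorable.mpr (upper V hV G h1 h3)
    · rw [SimpleGraph.le_chromaticNumber_iff_colorable]
      exact h4
  · rintro c ⟨V, hV, G, h1, h2, h3, h4⟩
    have := SimpleGraph.chromaticNumber_le_iff_colorable.mpr (upper V hV G h1 h3)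
    rw [h4] at this
    exact_mod_cast this

end Pool.Agent.Results.MP_ab9fcb_co.OptimalBinding
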